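import Pool.Agent.MP_ee26cf_co.Tri

set_option autoImplicit false

namespace Pool.Agent.Results.MP_ee26cf_co.OneTriangle

/-- For every `K` there is a graph whose complement is connected, has as many edges as vertices and
exactly one triangle, and whose coefficients in the falling-factorial basis satisfy
`K * b (j+1) ^ 2 < b j * b (j+2)` at the chromatic number `j`. -/
theorem result :
    ∀ K : ℕ, ∃ (p j : ℕ) (G : SimpleGraph (Fin p)) (b : ℕ → ℕ),
      (∀ k : ℕ, b k =
        {P : Finpartition (Finset.univ : Finset (Fin p)) |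
          P.parts.card = k ∧ ∀ s ∈ P.parts, G.IsIndepSet (↑s : Set (Fin p))}.ncard) ∧
      Gᶜ.Connected ∧ Gᶜ.edgeSet.ncard = p ∧ (∃! s : Finset (Fin p), Gᶜ.IsNClique 3 s) ∧
      G.chromaticNumber = (j : ℕ∞) ∧ j + 2 ≤ p ∧ 0 < b (j + 1) ∧
      K * b (j + 1) ^ 2 < b j * b (j + 2) := by
  intro K
  obtain ⟨p, j, G, h⟩ := Pool.Agent.MP_ee26cf_co.one_triangle K
  exact ⟨p, j, G, fun k => (Pool.Agent.MP_ee26cf_co.Ptn G k).ncard, fun _ => rfl, h⟩

end Pool.Agent.Results.MP_ee26cf_co.OneTriangle
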